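import Pool.Agent.Lib.MP_abd978_an.UN.Interfaces

/-!
# UNW, module LEB (helper29): almost every point is a Lebesgue point of the operator

The map `x ↦ a x` into `C(E, E)` (compact-open topology, second countable) is Borel measurable,
hence approximately continuous at almost every point.
-/

set_option autoImplicit false

open MeasureTheory Metric Set Filter Topology ContDiff
open scoped Gradient RealInnerProductSpace NNReal ENNReal

namespace Pool.Agent.Lib.MP_abd978_an.UN.H29

/-- approximate continuity of measurable maps -/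
theorem ae_density {n : ℕ} {Y : Type} [TopologicalSpace Y] [SecondCountableTopology Y]
    (f : E n → Y) (hf : ∀ U, IsOpen U → MeasurableSet (f ⁻¹' U)) :
    ∀ᵐ x : E n, ∀ V ∈ 𝓝 (f x), Tendsto (fun r : ℝ =>
      (volume : Measure (E n)) ((f ⁻¹' V)ᶜ ∩ closedBall x r) / volume (closedBall x r))
        (𝓝[>] 0) (𝓝 0) := by
  obtain ⟨b, hbc, -, hb⟩ := TopologicalSpace.exists_countable_basis Y
  have h1 : ∀ᵐ x : E n, ∀ U ∈ b, Tendsto (fun r : ℝ =>
      (volume : Measure (E n)) ((f ⁻¹' U)ᶜ ∩ closedBall x r) / volume (closedBall x r))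
        (𝓝[>] 0) (𝓝 ((f ⁻¹' U)ᶜ.indicator 1 x)) := by
    rw [ae_ball_iff hbc]
    intro U hU
    exact Besicovitch.ae_tendsto_measure_inter_div_of_measurableSet volume
      (hf U (hb.isOpen hU)).compl
  filter_upwards [h1] with x hx V hV
  obtain ⟨U, hU, hxU, hUV⟩ := hb.mem_nhds_iff.1 hV
  have h2 := hx U hU
  have h3 : (f ⁻¹' U)ᶜ.indicator (1 : E n → ℝ≥0∞) x = 0 := by
    rw [indicator_of_notMem]
    simpa using hxU
  rw [h3] at h2
  refine tendsto_of_tendsto_of_tendsto_of_le_of_le tendsto_const_nhds h2 (fun _ => bot_le)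
    fun r => ?_
  refine ENNReal.div_le_div_right (measure_mono ?_) _
  exact inter_subset_inter_left _ (compl_subset_compl.2 (preimage_mono hUV))

/-- the operator as a map into the space of continuous maps -/
theorem meas_toC {n : ℕ} (a : E n → E n → E n) (hm : Measurable fun q : E n × E n => a q.1 q.2)
    (hc : ∀ x, Continuous (a x)) (U : Set C(E n, E n)) (hU : IsOpen U) :
    MeasurableSet ((fun x => (⟨a x, hc x⟩ : C(E n, E n))) ⁻¹' U) := by
  let _ : MeasurableSpace C(E n, E n) := borel _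
  have : BorelSpace C(E n, E n) := ⟨rfl⟩
  have h1 : Measurable fun x => (⟨a x, hc x⟩ : C(E n, E n)) := by
    have h2 : borel C(E n, E n) = MeasurableSpace.generateFrom
        (image2 (fun K U => {f : C(E n, E n) | MapsTo f K U}) {K | IsCompact K} {t | IsOpen t}) :=
      borel_eq_generateFrom_of_subbasis rfl
    show @Measurable _ _ _ (borel C(E n, E n)) _
    rw [h2]
    refine measurable_generateFrom ?_
    rintro t ⟨K, hK, V, hV, rfl⟩
    obtain ⟨K', hK'c, hK'K, hK'⟩ : ∃ K' : Set (E n), K'.Countable ∧ K' ⊆ K ∧ K ⊆ closure K' := by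
      obtain ⟨s, hs1, hs2, hs3⟩ := TopologicalSpace.IsSeparable.exists_countable_dense_subset
        (TopologicalSpace.IsSeparable.of_separableSpace K)
      exact ⟨s, hs2, hs1, hs3⟩
    have hV' : IsOpen V := hV
    have hK2 : IsCompact K := hK
    have h3 : (fun x => (⟨a x, hc x⟩ : C(E n, E n))) ⁻¹' {f : C(E n, E n) | MapsTo f K V} =
        ⋃ j : ℕ, ⋂ ξ ∈ K', {x : E n | ENNReal.ofReal (1 / (j + 1)) ≤ infEDist (a x ξ) Vᶜ} := by
      ext x
      simp only [mem_preimage, mem_ofPred_eq, mem_iUnion, mem_iInter]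
      constructor
      · intro h
        rcases K.eq_empty_or_nonempty with rfl | hne
        · exact ⟨0, fun ξ hξ => absurd (hK'K hξ) (by simp)⟩
        obtain ⟨δ, hδ, h4⟩ : ∃ δ : ℝ≥0∞, 0 < δ ∧ ∀ ξ ∈ K, δ ≤ infEDist (a x ξ) Vᶜ := by
          obtain ⟨ξ₀, hξ₀, h5⟩ := hK2.exists_isMinOn hne
            ((continuous_infEDist (s := Vᶜ)).comp (hc x)).continuousOn
          refine ⟨infEDist (a x ξ₀) Vᶜ, ?_, fun ξ hξ => h5 hξ⟩
          rw [pos_iff_ne_zero]
          intro h0
          have h6 : a x ξ₀ ∈ closure Vᶜ := mem_closure_iff_infEDist_zero.2 h0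
          rw [hV'.isClosed_compl.closure_eq] at h6
          exact h6 (h hξ₀)
        obtain ⟨j, hj⟩ : ∃ j : ℕ, ENNReal.ofReal (1 / (j + 1)) ≤ δ := by
          rcases eq_or_ne δ ⊤ with h7 | h7
          · exact ⟨0, by rw [h7]; exact le_top⟩
          · obtain ⟨j, hj⟩ := exists_nat_one_div_lt (ENNReal.toReal_pos hδ.ne' h7)
            exact ⟨j, (ENNReal.ofReal_le_ofReal hj.le).trans (ENNReal.ofReal_toReal_le)⟩
        exact ⟨j, fun ξ hξ => hj.trans (h4 ξ (hK'K hξ))⟩
      · rintro ⟨j, hj⟩ ξ hξ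
        have h4 : IsClosed {ξ : E n | ENNReal.ofReal (1 / (j + 1)) ≤ infEDist (a x ξ) Vᶜ} :=
          isClosed_le continuous_const ((continuous_infEDist (s := Vᶜ)).comp (hc x))
        have h5 : closure K' ⊆ {ξ : E n | ENNReal.ofReal (1 / (j + 1)) ≤ infEDist (a x ξ) Vᶜ} :=
          closure_minimal (fun ξ hξ => hj ξ hξ) h4
        have h6 := h5 (hK' hξ)
        by_contra hcon
        have h7 : infEDist (a x ξ) Vᶜ = 0 := infEDist_zero_of_mem hcon
        have h8 : ENNReal.ofReal (1 / (j + 1)) ≤ infEDist (a x ξ) Vᶜ := h6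
        rw [h7] at h8
        have h9 : (0 : ℝ) < 1 / (j + 1) := by positivity
        exact absurd h8 (not_le.2 (ENNReal.ofReal_pos.2 h9))
    rw [h3]
    refine MeasurableSet.iUnion fun j => MeasurableSet.biInter hK'c fun ξ _ => ?_
    have h4 : Measurable fun x : E n => a x ξ := hm.comp (measurable_id.prodMk measurable_const)
    exact measurableSet_le measurable_const (h4.infEDist)
  exact h1 hU.measurableSet

/-- rescaling -/
theorem vol_scale {n : ℕ} (x₀ : E n) (r s : ℝ) (hr : 0 < r) (hs : 0 < s) (T : Set (E n)) :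
    volume {y : E n | y ∈ ball 0 s ∧ x₀ + r • y ∈ T} ≤
      volume (closedBall (0 : E n) s) *
        (volume (T ∩ closedBall x₀ (r * s)) / volume (closedBall x₀ (r * s))) := by
  have h1 : {y : E n | y ∈ ball 0 s ∧ x₀ + r • y ∈ T} ⊆
      (fun y => r • y) ⁻¹' ((fun z => x₀ + z) ⁻¹' (T ∩ closedBall x₀ (r * s))) := by
    rintro y ⟨hy, hyT⟩
    refine ⟨hyT, ?_⟩
    rw [mem_closedBall, dist_eq_norm, add_sub_cancel_left, norm_smul, Real.norm_of_nonneg hr.le]
    rw [mem_ball, dist_zero_right] at hy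
    exact mul_le_mul_of_nonneg_left hy.le hr.le
  refine (measure_mono h1).trans ?_
  rw [Measure.addHaar_preimage_smul volume hr.ne', measure_preimage_add]
  have h2 : volume (closedBall x₀ (r * s)) =
      ENNReal.ofReal (r ^ Module.finrank ℝ (E n)) * volume (closedBall (0 : E n) s) :=
    Measure.addHaar_closedBall_mul volume x₀ hr.le hs.le
  rw [h2]
  have h3 : (0 : ℝ) < r ^ Module.finrank ℝ (E n) := by positivity
  have h4 : volume (closedBall (0 : E n) s) ≠ ⊤ := measure_closedBall_lt_top.ne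
  have h5 : volume (closedBall (0 : E n) s) ≠ 0 := (measure_closedBall_pos volume _ hs).ne'
  have h6 : ENNReal.ofReal (r ^ Module.finrank ℝ (E n)) ≠ 0 := (ENNReal.ofReal_pos.2 h3).ne'
  rw [abs_of_pos (by positivity), ENNReal.ofReal_inv_of_pos h3]
  rw [ENNReal.div_eq_inv_mul, ENNReal.mul_inv (Or.inl h6) (Or.inl ENNReal.ofReal_ne_top),
    ← mul_assoc, ← mul_assoc, mul_comm (volume (closedBall (0 : E n) s)), mul_assoc _
    (volume (closedBall (0 : E n) s)), ENNReal.mul_inv_cancel h5 h4, mul_one]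

/-- LEB -/
theorem leb : LebStatement := by
  intro n p a α β hop
  have h1 := ae_density (fun x => (⟨a x, hop.cont x⟩ : C(E n, E n)))
    (meas_toC a hop.meas hop.cont)
  filter_upwards [h1] with x₀ hx₀
  intro s M ε hε
  rcases le_or_gt s 0 with hs | hs
  · have h2 : ∀ r : ℝ, volume {y : E n | y ∈ ball 0 s ∧
        ∃ ξ : E n, ‖ξ‖ ≤ M ∧ ε ≤ ‖a (x₀ + r • y) ξ - a x₀ ξ‖} = 0 := by
      intro r
      rw [ball_eq_empty.2 hs]
      simp
    simp_rw [h2]
    exact tendsto_const_nhds
  have hV : {g : C(E n, E n) | ∀ ξ ∈ closedBall (0 : E n) M, dist (a x₀ ξ) (g ξ) < ε} ∈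
      𝓝 (⟨a x₀, hop.cont x₀⟩ : C(E n, E n)) := by
    have h2 := ContinuousMap.tendsto_iff_forall_isCompact_tendstoUniformlyOn.1
      (tendsto_id (x := 𝓝 (⟨a x₀, hop.cont x₀⟩ : C(E n, E n)))) (closedBall (0 : E n) M)
      (isCompact_closedBall _ _)
    exact Metric.tendstoUniformlyOn_iff.1 h2 ε hε
  have h3 := hx₀ _ hV
  have h4 : Tendsto (fun r : ℝ => r * s) (𝓝[>] 0) (𝓝[>] 0) := by
    refine tendsto_nhdsWithin_iff.2 ⟨?_, ?_⟩
    · have : Tendsto (fun r : ℝ => r * s) (𝓝 0) (𝓝 (0 * s)) :=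
        (continuous_id.mul continuous_const).tendsto 0
      rw [zero_mul] at this
      exact this.mono_left nhdsWithin_le_nhds
    · filter_upwards [self_mem_nhdsWithin] with r hr
      exact mul_pos hr hs
  have h5 := ENNReal.Tendsto.const_mul (a := volume (closedBall (0 : E n) s)) (h3.comp h4)
    (Or.inr measure_closedBall_lt_top.ne)
  rw [mul_zero] at h5
  refine tendsto_of_tendsto_of_tendsto_of_le_of_le' tendsto_const_nhds h5
    (Eventually.of_forall fun _ => bot_le) ?_
  filter_upwards [self_mem_nhdsWithin] with r hr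
  refine le_trans (measure_mono ?_) (vol_scale x₀ r s hr hs _)
  rintro y ⟨hy, ξ, hξ, hle⟩
  refine ⟨hy, ?_⟩
  intro hcon
  have h6 : dist (a x₀ ξ) (a (x₀ + r • y) ξ) < ε := hcon ξ (by simpa using hξ)
  rw [dist_comm, dist_eq_norm] at h6
  exact absurd hle (not_le.2 h6)

end Pool.Agent.Lib.MP_abd978_an.UN.H29
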